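import Mathlib

set_option autoImplicit false

/-! Operators on `L¹` of a countable measure space almost attain their norms at single points. -/

namespace Pool.Agent.W685.PA

open MeasureTheory Filter Topology
open scoped ENNReal

section
variable {X : Type} [Countable X] [MeasurableSpace X] [MeasurableSingletonClass X]
  {F : Type} [NormedAddCommGroup F] [NormedSpace ℝ F] {ν : Measure X}

/-- restriction of a function to a set -/
noncomputable def ind (g : Lp F 1 ν) (A : Set X) : Lp F 1 ν :=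
  ((Lp.memLp g).indicator (Set.to_countable A).measurableSet).toLp (A.indicator g)

theorem ind_coe (g : Lp F 1 ν) (A : Set X) : ⇑(ind g A) =ᵐ[ν] A.indicator g :=
  MemLp.coeFn_toLp _

theorem ind_norm (g : Lp F 1 ν) (A : Set X) : ‖ind g A‖ = ∫ z in A, ‖g z‖ ∂ν := by
  rw [L1.norm_eq_integral_norm, ← integral_indicator (Set.to_countable A).measurableSet]
  refine integral_congr_ae ?_
  filter_upwards [ind_coe g A] with z hz
  rw [hz]
  by_cases hA : z ∈ A
  · rw [Set.indicator_of_mem hA, Set.indicator_of_mem hA]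
  · rw [Set.indicator_of_notMem hA, Set.indicator_of_notMem hA, norm_zero]

theorem ind_union (g : Lp F 1 ν) (A B : Set X) (h : Disjoint A B) :
    ind g (A ∪ B) = ind g A + ind g B := by
  apply Lp.ext
  filter_upwards [ind_coe g (A ∪ B), ind_coe g A, ind_coe g B, Lp.coeFn_add (ind g A) (ind g B)]
    with z h1 h2 h3 h4
  rw [h4, h1, Pi.add_apply, h2, h3, Set.indicator_union_of_disjoint h]

theorem ind_norm_union (g : Lp F 1 ν) (A B : Set X) (h : Disjoint A B) :
    ‖ind g (A ∪ B)‖ = ‖ind g A‖ + ‖ind g B‖ := by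
  rw [ind_norm, ind_norm, ind_norm]
  have hg : Integrable (fun z => ‖g z‖) ν := (L1.integrable_coeFn g).norm
  exact setIntegral_union h (Set.to_countable B).measurableSet hg.integrableOn hg.integrableOn

theorem ind_compl (g : Lp F 1 ν) (A : Set X) : g = ind g A + ind g Aᶜ := by
  rw [← ind_union g A Aᶜ disjoint_compl_right, Set.union_compl_self]
  apply Lp.ext
  filter_upwards [ind_coe g Set.univ] with z h1
  rw [h1, Set.indicator_univ]

theorem ind_norm_le (g : Lp F 1 ν) (A : Set X) : ‖ind g A‖ ≤ ‖g‖ := by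
  rw [ind_norm, L1.norm_eq_integral_norm]
  exact setIntegral_le_integral (L1.integrable_coeFn g).norm (ae_of_all _ fun z => norm_nonneg _)

theorem ind_tendsto (g : Lp F 1 ν) :
    Tendsto (fun s : Finset X => ‖ind g (s : Set X)ᶜ‖) atTop (𝓝 0) := by
  have hfin : ∑' z, ‖g z‖ₑ * ν {z} ≠ ⊤ := by
    rw [← lintegral_countable']
    have := (Lp.memLp g).eLpNorm_lt_top
    rw [eLpNorm_one_eq_lintegral_enorm] at this
    exact this.ne
  have h1 := ENNReal.tendsto_tsum_compl_atTop_zero hfin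
  have h2 : ∀ s : Finset X, ‖ind g (s : Set X)ᶜ‖ =
      (∑' z : {x // x ∉ s}, ‖g z‖ₑ * ν {(z : X)}).toReal := by
    intro s
    rw [ind_norm]
    rw [integral_norm_eq_lintegral_enorm (L1.integrable_coeFn g).aestronglyMeasurable.restrict]
    congr 1
    rw [← lintegral_indicator (Set.to_countable _).measurableSet, lintegral_countable']
    have h3 : ∀ z, ((s : Set X)ᶜ.indicator (fun a => ‖g a‖ₑ) z) * ν {z} =
        {x | x ∉ s}.indicator (fun z => ‖g z‖ₑ * ν {z}) z := by
      intro z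
      by_cases hz : z ∈ s
      · rw [Set.indicator_of_notMem (by simpa using hz), Set.indicator_of_notMem (by simpa using hz),
          zero_mul]
      · rw [Set.indicator_of_mem (by simpa using hz), Set.indicator_of_mem (by simpa using hz)]
    simp_rw [h3]
    exact (tsum_subtype {x | x ∉ s} (fun z => ‖g z‖ₑ * ν {z})).symm
  simp_rw [h2]
  have h4 := (ENNReal.tendsto_toReal ENNReal.zero_ne_top).comp h1
  rw [ENNReal.toReal_zero] at h4
  exact h4

theorem onl_one (hfin : ∀ x, ν {x} ≠ ⊤) (hν : ν ≠ 0) (c : F) (hc : c ≠ 0)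
    (T : Lp F 1 ν →L[ℝ] Lp F 1 ν) :
    ∃ ξ : Lp F 1 ν, ξ ≠ 0 ∧ (∃ x : X, ∀ᵐ z ∂ν, z ∉ ({x} : Set X) → ξ z = 0) ∧
      (1 / 2) * ‖T‖ * ‖ξ‖ ≤ ‖T ξ‖ := by
  classical
  by_contra hcon
  push Not at hcon
  have hall : ∀ (ξ : Lp F 1 ν) (x : X), (∀ᵐ z ∂ν, z ∉ ({x} : Set X) → ξ z = 0) →
      ‖T ξ‖ ≤ (1 / 2) * ‖T‖ * ‖ξ‖ := by
    intro ξ x hx
    by_cases h0 : ξ = 0
    · rw [h0]; simp
    · exact (hcon ξ h0 ⟨x, hx⟩).le
  have hpt : ∀ (g : Lp F 1 ν) (x : X), ‖T (ind g {x})‖ ≤ (1 / 2) * ‖T‖ * ‖ind g {x}‖ := by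
    intro g x
    refine hall _ x ?_
    filter_upwards [ind_coe g {x}] with z hz hzx
    rw [hz, Set.indicator_of_notMem hzx]
  have hfs : ∀ (g : Lp F 1 ν) (s : Finset X), ‖T (ind g s)‖ ≤ (1 / 2) * ‖T‖ * ‖ind g s‖ := by
    intro g s
    induction s using Finset.induction_on with
    | empty =>
      have h0 : ind g ((∅ : Finset X) : Set X) = 0 := by
        rw [← norm_eq_zero, ind_norm]
        simp
      rw [h0]; simp
    | insert a s ha ih =>
      have h1 : ((insert a s : Finset X) : Set X) = {a} ∪ (s : Set X) := by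
        rw [Finset.coe_insert, Set.insert_eq]
      have hd : Disjoint ({a} : Set X) (s : Set X) := by
        rw [Set.disjoint_singleton_left]
        exact ha
      rw [h1, ind_norm_union g _ _ hd, ind_union g _ _ hd, map_add]
      have := norm_add_le (T (ind g {a})) (T (ind g s))
      have := hpt g a
      linarith
  have hg : ∀ g : Lp F 1 ν, ‖T g‖ ≤ (1 / 2) * ‖T‖ * ‖g‖ := by
    intro g
    have h1 : ∀ s : Finset X, ‖T g‖ ≤ (1 / 2) * ‖T‖ * ‖g‖ + ‖T‖ * ‖ind g (s : Set X)ᶜ‖ := by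
      intro s
      have h2 : T g = T (ind g s) + T (ind g (s : Set X)ᶜ) := by
        rw [← map_add, ← ind_compl g s]
      rw [h2]
      refine (norm_add_le _ _).trans (add_le_add ((hfs g s).trans ?_) (T.le_opNorm _))
      have := ind_norm_le g (s : Set X)
      gcongr
    have h3 : Tendsto (fun s : Finset X => (1 / 2) * ‖T‖ * ‖g‖ + ‖T‖ * ‖ind g (s : Set X)ᶜ‖) atTop
        (𝓝 ((1 / 2) * ‖T‖ * ‖g‖ + ‖T‖ * 0)) := ((ind_tendsto g).const_mul _).const_add _
    have h4 := ge_of_tendsto' h3 h1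
    simpa using h4
  have hT : ‖T‖ ≤ (1 / 2) * ‖T‖ := T.opNorm_le_bound (by positivity) hg
  have hT0 : ‖T‖ = 0 := by
    have := norm_nonneg T
    linarith
  obtain ⟨x, hx⟩ : ∃ x : X, ν {x} ≠ 0 := by
    by_contra hno
    push Not at hno
    apply hν
    rw [← Measure.measure_univ_eq_zero, ← Set.iUnion_of_singleton X, measure_iUnion_null_iff]
    exact hno
  set ξ : Lp F 1 ν := indicatorConstLp 1 (measurableSet_singleton x) (hfin x) c with hξ
  have hξ0 : ξ ≠ 0 := by
    rw [← norm_ne_zero_iff, hξ, norm_indicatorConstLp one_ne_zero ENNReal.one_ne_top]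
    have h1 : 0 < ν.real {x} := ENNReal.toReal_pos hx (hfin x)
    have h2 : 0 < ‖c‖ := norm_pos_iff.2 hc
    positivity
  have h5 := hcon ξ hξ0 ⟨x, by
    filter_upwards [indicatorConstLp_coeFn (p := 1) (hs := measurableSet_singleton x)
      (hμs := hfin x) (c := c)] with z hz hzx
    rw [hξ, hz, Set.indicator_of_notMem hzx]⟩
  rw [hT0] at h5
  have := norm_nonneg (T ξ)
  simp at h5
  linarith

end

end Pool.Agent.W685.PA
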