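import Mathlib

set_option autoImplicit false

/-! Word-length balls in the group generated by the two Sanov matrices, and their finite quotients. -/

namespace Pool.Agent.W685.PA

open scoped Pointwise

/-- the group `SL₂(ℤ)` -/
abbrev G : Type := Matrix.SpecialLinearGroup (Fin 2) ℤ

/-- the upper Sanov matrix -/
def gA (e : ℤ) : G := ⟨!![1, 2 * e; 0, 1], by simp [Matrix.det_fin_two]⟩
/-- the lower Sanov matrix -/
def gB (e : ℤ) : G := ⟨!![1, 0; 2 * e, 1], by simp [Matrix.det_fin_two]⟩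

/-- the generators -/
def gens : Set G := {1, gA 1, gA (-1), gB 1, gB (-1)}

theorem mul_entry (g h : G) (i j : Fin 2) :
    (g * h).1 i j = g.1 i 0 * h.1 0 j + g.1 i 1 * h.1 1 j := by
  have : (g * h).1 = g.1 * h.1 := rfl
  rw [this, Matrix.mul_apply, Fin.sum_univ_two]

theorem gA_inv (e : ℤ) : (gA e)⁻¹ = gA (-e) := by
  rw [inv_eq_iff_mul_eq_one]
  apply Subtype.ext
  ext i j
  rw [mul_entry]
  fin_cases i <;> fin_cases j <;> simp [gA]

theorem gB_inv (e : ℤ) : (gB e)⁻¹ = gB (-e) := by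
  rw [inv_eq_iff_mul_eq_one]
  apply Subtype.ext
  ext i j
  rw [mul_entry]
  fin_cases i <;> fin_cases j <;> simp [gB]

theorem gens_fin : gens.Finite := by
  unfold gens; exact Set.toFinite _

theorem one_mem : (1 : G) ∈ gens := by simp [gens]

theorem gens_inv : gens⁻¹ = gens := by
  have h : ∀ g ∈ gens, g⁻¹ ∈ gens := by
    intro g hg
    simp only [gens, Set.mem_insert_iff, Set.mem_singleton_iff] at hg ⊢
    rcases hg with rfl | rfl | rfl | rfl | rfl
    · left; exact inv_one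
    · right; right; left; exact gA_inv 1
    · right; left; rw [gA_inv]; norm_num
    · right; right; right; right; exact gB_inv 1
    · right; right; right; left; rw [gB_inv]; norm_num
  ext g
  rw [Set.mem_inv]
  exact ⟨fun hg => by simpa using h _ hg, fun hg => h _ hg⟩

/-- the word balls -/
def W (n : ℕ) : Set G := gens ^ n

theorem W_zero : W 0 = {1} := pow_zero _
theorem W_fin (n : ℕ) : (W n).Finite := by
  induction n with
  | zero => rw [W_zero]; exact Set.finite_singleton _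
  | succ n ih =>
    have : W (n + 1) = W n * gens := pow_succ _ _
    rw [this]
    exact ih.mul gens_fin
theorem W_mono {m n : ℕ} (h : m ≤ n) : W m ⊆ W n := Set.pow_subset_pow_right one_mem h
theorem W_mul {m n : ℕ} {g h : G} (hg : g ∈ W m) (hh : h ∈ W n) : g * h ∈ W (m + n) := by
  unfold W at *
  rw [pow_add]
  exact Set.mul_mem_mul hg hh
theorem W_inv {n : ℕ} {g : G} (hg : g ∈ W n) : g⁻¹ ∈ W n := by
  unfold W at *
  rw [← gens_inv, inv_pow]
  simpa using hg
theorem one_mem_W (n : ℕ) : (1 : G) ∈ W n := W_mono (Nat.zero_le n) (by rw [W_zero]; rfl)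
theorem W_one : W 1 = gens := pow_one _

/-- entries of the first column and their parities -/
theorem W_entries (n : ℕ) (g : G) (hg : g ∈ W n) :
    |g.1 0 0| ≤ 3 ^ n ∧ |g.1 1 0| ≤ 3 ^ n ∧ Odd (g.1 0 0) ∧ Even (g.1 1 0) := by
  induction n generalizing g with
  | zero =>
    rw [W_zero] at hg
    rw [Set.mem_singleton_iff] at hg
    subst hg
    simp
  | succ n ih =>
    unfold W at hg ih
    rw [pow_succ'] at hg
    obtain ⟨s, hs, g', hg', rfl⟩ := hg
    obtain ⟨h1, h2, h3, h4⟩ := ih g' hg'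
    have hp : (0 : ℤ) < 3 ^ n := by positivity
    have key : ∀ (x y e : ℤ), |x| ≤ 3 ^ n → |y| ≤ 3 ^ n → |e| = 1 → |x + 2 * e * y| ≤ 3 ^ (n + 1) := by
      intro x y e hx hy he
      calc |x + 2 * e * y| ≤ |x| + |2 * e * y| := abs_add_le _ _
        _ = |x| + 2 * |e| * |y| := by rw [abs_mul, abs_mul]; norm_num
        _ ≤ 3 ^ n + 2 * 1 * 3 ^ n := by rw [he]; gcongr
        _ = 3 ^ (n + 1) := by ring
    have hmono : (3 : ℤ) ^ n ≤ 3 ^ (n + 1) := by rw [pow_succ]; linarith
    have hoddA : ∀ (x y e : ℤ), Odd x → Odd (x + 2 * e * y) := by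
      rintro x y e ⟨k, hk⟩
      exact ⟨k + e * y, by rw [hk]; ring⟩
    have hevenB : ∀ (x y e : ℤ), Even y → Even (2 * e * x + y) := by
      rintro x y e ⟨k, hk⟩
      exact ⟨k + e * x, by rw [hk]; ring⟩
    have hA0 : ∀ e : ℤ, (gA e * g').1 0 0 = g'.1 0 0 + 2 * e * g'.1 1 0 := by
      intro e
      rw [mul_entry]
      simp [gA]
    have hA1 : ∀ e : ℤ, (gA e * g').1 1 0 = g'.1 1 0 := by
      intro e
      rw [mul_entry]
      simp [gA]
    have hB0 : ∀ e : ℤ, (gB e * g').1 0 0 = g'.1 0 0 := by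
      intro e
      rw [mul_entry]
      simp [gB]
    have hB1 : ∀ e : ℤ, (gB e * g').1 1 0 = 2 * e * g'.1 0 0 + g'.1 1 0 := by
      intro e
      rw [mul_entry]
      simp [gB]
    simp only [gens, Set.mem_insert_iff, Set.mem_singleton_iff] at hs
    rcases hs with rfl | rfl | rfl | rfl | rfl
    · simp only [one_mul]
      exact ⟨h1.trans hmono, h2.trans hmono, h3, h4⟩
    · simp only [hA0, hA1]
      exact ⟨key _ _ _ h1 h2 (by norm_num), h2.trans hmono, hoddA _ _ _ h3, h4⟩
    · simp only [hA0, hA1]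
      exact ⟨key _ _ _ h1 h2 (by norm_num), h2.trans hmono, hoddA _ _ _ h3, h4⟩
    · simp only [hB0, hB1]
      refine ⟨h1.trans hmono, ?_, h3, hevenB _ _ _ h4⟩
      rw [add_comm]
      exact key _ _ _ h2 h1 (by norm_num)
    · simp only [hB0, hB1]
      refine ⟨h1.trans hmono, ?_, h3, hevenB _ _ _ h4⟩
      rw [add_comm]
      exact key _ _ _ h2 h1 (by norm_num)

/-- the finite quotients -/
abbrev Q (k : ℕ) : Type := Matrix.SpecialLinearGroup (Fin 2) (ZMod (k + 1))

/-- the reduction -/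
def red (k : ℕ) : G →* Q k := Matrix.SpecialLinearGroup.map (Int.castRingHom (ZMod (k + 1)))

theorem red_apply (k : ℕ) (g : G) (i j : Fin 2) : (red k g).1 i j = ((g.1 i j : ℤ) : ZMod (k + 1)) := by
  rfl

/-- the first column, lifted -/
def vec (k : ℕ) (h : Q k) : ℤ × ℤ := ((h.1 0 0).valMinAbs, (h.1 1 0).valMinAbs)

theorem vec_red (k n : ℕ) (hk : 2 * 3 ^ n ≤ k) (g : G) (hg : g ∈ W n) :
    vec k (red k g) = (g.1 0 0, g.1 1 0) := by
  obtain ⟨h1, h2, -, -⟩ := W_entries n g hg
  have hk' : (2 * 3 ^ n : ℤ) ≤ k := by exact_mod_cast hk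
  have key : ∀ a : ℤ, |a| ≤ 3 ^ n → ((a : ZMod (k + 1))).valMinAbs = a := by
    intro a ha
    rw [ZMod.valMinAbs_spec]
    refine ⟨rfl, ?_, ?_⟩
    · have := (abs_le.1 ha).1
      push_cast
      linarith
    · have := (abs_le.1 ha).2
      push_cast
      linarith
  unfold vec
  rw [red_apply, red_apply, key _ h1, key _ h2]

end Pool.Agent.W685.PA
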