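import Mathlib
import Pool.Agent.W685.PA.Grp

set_option autoImplicit false

/-! The quotients have no uniform Reiter functions. -/

namespace Pool.Agent.W685.PA

open scoped Pointwise
open Classical

theorem tri (x y : ℤ) : |x - y| ≤ |x| + |y| := by
  have := abs_add_le x (-y)
  rwa [abs_neg, ← sub_eq_add_neg] at this

/-- the linear action -/
def act (g : G) (v : ℤ × ℤ) : ℤ × ℤ :=
  (g.1 0 0 * v.1 + g.1 0 1 * v.2, g.1 1 0 * v.1 + g.1 1 1 * v.2)

/-- counting -/
noncomputable def cnt {k : ℕ} (B : Q k → Finset (Q k × ℕ)) (x : Q k) (T : Set (ℤ × ℤ)) : ℝ :=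
  (((B x).filter fun w => vec k (x⁻¹ * w.1) ∈ T).card : ℝ)

/-- the total mass -/
noncomputable def mass {k : ℕ} (B : Q k → Finset (Q k × ℕ)) (T : Set (ℤ × ℤ)) : ℝ :=
  ∑ x : Q k, cnt B x T / ((B x).card : ℝ)

variable {k n : ℕ} (hk : 2 * 3 ^ (n + 1) ≤ k) (B : Q k → Finset (Q k × ℕ))
  (hne : ∀ x, (B x).Nonempty)
  (hB : ∀ x, ∀ w ∈ B x, ∃ g ∈ W n, red k g = x⁻¹ * w.1)
  (hvar : ∀ x, ∀ s ∈ gens, ((symmDiff (B x) (B (x * red k s))).card : ℝ) ≤
    1 / 16 * ((B x ∩ B (x * red k s)).card : ℝ))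

include hk hB in
theorem vec_shift (x : Q k) (s : G) (hs : s ∈ gens) (w : Q k × ℕ) (hw : w ∈ B x) :
    vec k ((x * red k s)⁻¹ * w.1) = act s⁻¹ (vec k (x⁻¹ * w.1)) := by
  obtain ⟨g, hg, hgx⟩ := hB x w hw
  have hk' : 2 * 3 ^ n ≤ k := le_trans (by rw [pow_succ]; linarith [Nat.pos_of_ne_zero (pow_ne_zero n (three_ne_zero : (3:ℕ) ≠ 0))]) hk
  have h1 : (x * red k s)⁻¹ * w.1 = red k (s⁻¹ * g) := by
    rw [map_mul, map_inv, hgx]
    group
  have h2 : s⁻¹ * g ∈ W (n + 1) := by
    rw [add_comm]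
    refine W_mul ?_ hg
    rw [W_one, ← gens_inv]
    simpa using hs
  rw [h1, ← hgx, vec_red k (n + 1) hk _ h2, vec_red k n hk' _ hg, mul_entry, mul_entry]
  rfl

include hk hne hB hvar in
theorem mass_shift (s : G) (hs : s ∈ gens) (T T' : Set (ℤ × ℤ))
    (hT : ∀ v, act s⁻¹ v ∈ T → v ∈ T') :
    mass B T - 1 / 8 * (Fintype.card (Q k) : ℝ) ≤ mass B T' := by
  have h1 : mass B T = ∑ x : Q k, cnt B (x * red k s) T / ((B (x * red k s)).card : ℝ) := by
    unfold mass
    exact (Equiv.sum_comp (Equiv.mulRight (red k s))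
      (fun x => cnt B x T / ((B x).card : ℝ))).symm
  have h2 : 1 / 8 * (Fintype.card (Q k) : ℝ) = ∑ x : Q k, (1 / 8 : ℝ) := by
    rw [Finset.sum_const, Finset.card_univ, nsmul_eq_mul]
    ring
  rw [h1, h2, ← Finset.sum_sub_distrib, mass]
  refine Finset.sum_le_sum fun x _ => ?_
  set y := x * red k s with hy
  have hv := hvar x s hs
  rw [← hy] at hv
  have ha : 0 < ((B x).card : ℝ) := by exact_mod_cast (hne x).card_pos
  have hb : 0 < ((B y).card : ℝ) := by exact_mod_cast (hne y).card_pos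
  set d : ℝ := ((symmDiff (B x) (B y)).card : ℝ) with hd
  have hd0 : 0 ≤ d := by positivity
  -- comparison of the counts
  have hc1 : cnt B y T ≤ cnt B x T' + ((B y \ B x).card : ℝ) := by
    unfold cnt
    have hsub : ((B y).filter fun w => vec k (y⁻¹ * w.1) ∈ T) ⊆
        ((B x).filter fun w => vec k (x⁻¹ * w.1) ∈ T') ∪ (B y \ B x) := by
      intro w hw
      rw [Finset.mem_filter] at hw
      rw [Finset.mem_union, Finset.mem_filter, Finset.mem_sdiff]
      by_cases hwx : w ∈ B x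
      · left
        refine ⟨hwx, hT _ ?_⟩
        rw [← vec_shift hk B hB x s hs w hwx]
        exact hw.2
      · right
        exact ⟨hw.1, hwx⟩
    have h3 := (Finset.card_le_card hsub).trans (Finset.card_union_le _ _)
    exact_mod_cast h3
  have hc2 : ((B y \ B x).card : ℝ) ≤ d := by
    rw [hd]
    have : B y \ B x ⊆ symmDiff (B x) (B y) := by
      intro w hw
      rw [Finset.mem_symmDiff]
      rw [Finset.mem_sdiff] at hw
      exact Or.inr hw
    exact_mod_cast Finset.card_le_card this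
  have hc3 : ((B x).card : ℝ) ≤ ((B y).card : ℝ) + d := by
    have : B x ⊆ B y ∪ symmDiff (B x) (B y) := by
      intro w hw
      rw [Finset.mem_union, Finset.mem_symmDiff]
      by_cases hwy : w ∈ B y
      · exact Or.inl hwy
      · exact Or.inr (Or.inl ⟨hw, hwy⟩)
    have h3 := (Finset.card_le_card this).trans (Finset.card_union_le _ _)
    rw [hd]
    exact_mod_cast h3
  have hc4 : d ≤ 1 / 16 * ((B x).card : ℝ) := by
    refine hv.trans ?_
    have : ((B x ∩ B y).card : ℝ) ≤ ((B x).card : ℝ) := by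
      exact_mod_cast Finset.card_le_card Finset.inter_subset_left
    linarith
  have hc5 : cnt B y T ≤ ((B y).card : ℝ) := by
    unfold cnt
    exact_mod_cast Finset.card_le_card (Finset.filter_subset _ _)
  have hc6 : 0 ≤ cnt B y T := by unfold cnt; positivity
  rw [sub_le_iff_le_add, div_le_iff₀ hb]
  have h5 : (cnt B x T' / ((B x).card : ℝ) + 1 / 8) * ((B y).card : ℝ) =
      (cnt B x T' + 1 / 8 * ((B x).card : ℝ)) * ((B y).card : ℝ) / ((B x).card : ℝ) := by
    field_simp
  rw [h5, le_div_iff₀ ha]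
  have h6 : cnt B y T - d + 1 / 8 * ((B x).card : ℝ) ≤ cnt B x T' + 1 / 8 * ((B x).card : ℝ) := by
    linarith
  have h7 : cnt B y T * ((B x).card : ℝ) ≤
      (cnt B y T - d + 1 / 8 * ((B x).card : ℝ)) * ((B y).card : ℝ) := by
    nlinarith
  exact h7.trans (mul_le_mul_of_nonneg_right h6 hb.le)

theorem cnt_add_le {T₁ T₂ T : Set (ℤ × ℤ)} (hd : ∀ v, v ∈ T₁ → v ∉ T₂) (h1 : T₁ ⊆ T) (h2 : T₂ ⊆ T)
    (x : Q k) : cnt B x T₁ + cnt B x T₂ ≤ cnt B x T := by
  unfold cnt
  have hdis : Disjoint ((B x).filter fun w => vec k (x⁻¹ * w.1) ∈ T₁)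
      ((B x).filter fun w => vec k (x⁻¹ * w.1) ∈ T₂) := by
    rw [Finset.disjoint_left]
    intro w hw hw'
    rw [Finset.mem_filter] at hw hw'
    exact hd _ hw.2 hw'.2
  have h3 := Finset.card_union_of_disjoint hdis
  have h4 : ((B x).filter fun w => vec k (x⁻¹ * w.1) ∈ T₁) ∪
      ((B x).filter fun w => vec k (x⁻¹ * w.1) ∈ T₂) ⊆
      ((B x).filter fun w => vec k (x⁻¹ * w.1) ∈ T) := by
    intro w hw
    rw [Finset.mem_union, Finset.mem_filter, Finset.mem_filter] at hw
    rw [Finset.mem_filter]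
    rcases hw with hw | hw
    · exact ⟨hw.1, h1 hw.2⟩
    · exact ⟨hw.1, h2 hw.2⟩
  have h5 := Finset.card_le_card h4
  rw [h3] at h5
  exact_mod_cast h5

theorem cnt_cover {T₁ T₂ : Set (ℤ × ℤ)} (x : Q k)
    (h : ∀ w ∈ B x, vec k (x⁻¹ * w.1) ∈ T₁ ∨ vec k (x⁻¹ * w.1) ∈ T₂) :
    ((B x).card : ℝ) ≤ cnt B x T₁ + cnt B x T₂ := by
  unfold cnt
  have hsub : B x ⊆ ((B x).filter fun w => vec k (x⁻¹ * w.1) ∈ T₁) ∪
      ((B x).filter fun w => vec k (x⁻¹ * w.1) ∈ T₂) := by
    intro w hw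
    rw [Finset.mem_union, Finset.mem_filter, Finset.mem_filter]
    rcases h w hw with h | h
    · left; exact ⟨hw, h⟩
    · right; exact ⟨hw, h⟩
  have h3 := (Finset.card_le_card hsub).trans (Finset.card_union_le _ _)
  exact_mod_cast h3

theorem mass_add_le {T₁ T₂ T : Set (ℤ × ℤ)} (hd : ∀ v, v ∈ T₁ → v ∉ T₂) (h1 : T₁ ⊆ T)
    (h2 : T₂ ⊆ T) : mass B T₁ + mass B T₂ ≤ mass B T := by
  unfold mass
  rw [← Finset.sum_add_distrib]
  refine Finset.sum_le_sum fun x _ => ?_
  rw [← add_div]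
  exact div_le_div_of_nonneg_right (cnt_add_le B hd h1 h2 x) (by positivity)

include hk hne hB hvar in
theorem nonA : False := by
  have hk' : 2 * 3 ^ n ≤ k := le_trans (by rw [pow_succ]; linarith [Nat.pos_of_ne_zero (pow_ne_zero n (three_ne_zero : (3:ℕ) ≠ 0))]) hk
  set D1 : Set (ℤ × ℤ) := {v | |v.2| < |v.1|} with hD1
  set D2 : Set (ℤ × ℤ) := {v | |v.1| < |v.2|} with hD2
  set A1 : Set (ℤ × ℤ) := {v | |v.1 - 2 * v.2| < |v.2|} with hA1
  set A2 : Set (ℤ × ℤ) := {v | |v.1 + 2 * v.2| < |v.2|} with hA2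
  set B1 : Set (ℤ × ℤ) := {v | |v.2 - 2 * v.1| < |v.1|} with hB1
  set B2 : Set (ℤ × ℤ) := {v | |v.2 + 2 * v.1| < |v.1|} with hB2
  have m1 : mass B D2 - 1 / 8 * (Fintype.card (Q k) : ℝ) ≤ mass B A1 := by
    refine mass_shift hk B hne hB hvar (gA 1) (by simp [gens]) D2 A1 fun v hv => ?_
    rw [gA_inv] at hv
    simp only [hD2, act, gA, Set.mem_ofPred_eq] at hv
    simp only [hA1, Set.mem_ofPred_eq]
    simp at hv
    convert hv using 2
    ring
  have m2 : mass B D2 - 1 / 8 * (Fintype.card (Q k) : ℝ) ≤ mass B A2 := by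
    refine mass_shift hk B hne hB hvar (gA (-1)) (by simp [gens]) D2 A2 fun v hv => ?_
    rw [gA_inv] at hv
    simp only [hD2, act, gA, Set.mem_ofPred_eq] at hv
    simp only [hA2, Set.mem_ofPred_eq]
    simpa using hv
  have m3 : mass B D1 - 1 / 8 * (Fintype.card (Q k) : ℝ) ≤ mass B B1 := by
    refine mass_shift hk B hne hB hvar (gB 1) (by simp [gens]) D1 B1 fun v hv => ?_
    rw [gB_inv] at hv
    simp only [hD1, act, gB, Set.mem_ofPred_eq] at hv
    simp only [hB1, Set.mem_ofPred_eq]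
    simp at hv
    convert hv using 2
    ring
  have m4 : mass B D1 - 1 / 8 * (Fintype.card (Q k) : ℝ) ≤ mass B B2 := by
    refine mass_shift hk B hne hB hvar (gB (-1)) (by simp [gens]) D1 B2 fun v hv => ?_
    rw [gB_inv] at hv
    simp only [hD1, act, gB, Set.mem_ofPred_eq] at hv
    simp only [hB2, Set.mem_ofPred_eq]
    simp at hv
    convert hv using 2
    ring
  have e1 : mass B A1 + mass B A2 ≤ mass B D1 := by
    refine mass_add_le B ?_ ?_ ?_
    · rintro ⟨a, b⟩ h1 h2
      simp only [hA1, hA2, Set.mem_ofPred_eq] at h1 h2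
      have h3 : |4 * b| ≤ |a + 2 * b| + |a - 2 * b| := by
        have := tri (a + 2 * b) (a - 2 * b)
        convert this using 2
        ring
      rw [abs_mul] at h3
      norm_num at h3
      have := abs_nonneg b
      linarith
    · rintro ⟨a, b⟩ h1
      simp only [hA1, Set.mem_ofPred_eq] at h1
      simp only [hD1, Set.mem_ofPred_eq]
      have h3 : |2 * b| ≤ |a| + |a - 2 * b| := by
        have := tri a (a - 2 * b)
        convert this using 2
        ring
      rw [abs_mul] at h3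
      norm_num at h3
      linarith
    · rintro ⟨a, b⟩ h1
      simp only [hA2, Set.mem_ofPred_eq] at h1
      simp only [hD1, Set.mem_ofPred_eq]
      have h3 : |2 * b| ≤ |a + 2 * b| + |a| := by
        have := tri (a + 2 * b) a
        convert this using 2
        ring
      rw [abs_mul] at h3
      norm_num at h3
      linarith
  have e2 : mass B B1 + mass B B2 ≤ mass B D2 := by
    refine mass_add_le B ?_ ?_ ?_
    · rintro ⟨b, a⟩ h1 h2
      simp only [hB1, hB2, Set.mem_ofPred_eq] at h1 h2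
      have h3 : |4 * b| ≤ |a + 2 * b| + |a - 2 * b| := by
        have := tri (a + 2 * b) (a - 2 * b)
        convert this using 2
        ring
      rw [abs_mul] at h3
      norm_num at h3
      have := abs_nonneg b
      linarith
    · rintro ⟨b, a⟩ h1
      simp only [hB1, Set.mem_ofPred_eq] at h1
      simp only [hD2, Set.mem_ofPred_eq]
      have h3 : |2 * b| ≤ |a| + |a - 2 * b| := by
        have := tri a (a - 2 * b)
        convert this using 2
        ring
      rw [abs_mul] at h3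
      norm_num at h3
      linarith
    · rintro ⟨b, a⟩ h1
      simp only [hB2, Set.mem_ofPred_eq] at h1
      simp only [hD2, Set.mem_ofPred_eq]
      have h3 : |2 * b| ≤ |a + 2 * b| + |a| := by
        have := tri (a + 2 * b) a
        convert this using 2
        ring
      rw [abs_mul] at h3
      norm_num at h3
      linarith
  have tot : (Fintype.card (Q k) : ℝ) ≤ mass B D1 + mass B D2 := by
    have h2 : (Fintype.card (Q k) : ℝ) = ∑ x : Q k, (1 : ℝ) := by
      rw [Finset.sum_const, Finset.card_univ, nsmul_eq_mul, mul_one]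
    unfold mass
    rw [h2, ← Finset.sum_add_distrib]
    refine Finset.sum_le_sum fun x _ => ?_
    have ha : 0 < ((B x).card : ℝ) := by exact_mod_cast (hne x).card_pos
    rw [← add_div, le_div_iff₀ ha, one_mul]
    refine cnt_cover B x fun w hw => ?_
    obtain ⟨g, hg, hgx⟩ := hB x w hw
    obtain ⟨-, -, h3, h4⟩ := W_entries n g hg
    rw [← hgx, vec_red k n hk' g hg]
    have hne' : |g.1 0 0| ≠ |g.1 1 0| := by
      intro h
      rw [← odd_abs] at h3
      rw [← even_abs] at h4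
      rw [h] at h3
      exact (Int.not_even_iff_odd.2 h3) h4
    rcases lt_or_gt_of_ne hne' with h | h
    · right; exact h
    · left; exact h
  have hcard : 0 < (Fintype.card (Q k) : ℝ) := by
    exact_mod_cast Fintype.card_pos
  linarith

end Pool.Agent.W685.PA
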