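import Mathlib
import Pool.Agent.W685.PA.NonA

set_option autoImplicit false

/-! A box space: a bounded geometry metric space without property A. -/

namespace Pool.Agent.W685.PA

open scoped Pointwise
open Classical

/-- the truncated length -/
noncomputable def L (k : ℕ) (h : Q k) : ℕ := sInf ({n | ∃ g ∈ W n, red k g = h} ∪ {k + 1})

theorem L_mem (k : ℕ) (h : Q k) : (∃ g ∈ W (L k h), red k g = h) ∨ L k h = k + 1 := by
  have : L k h ∈ ({n | ∃ g ∈ W n, red k g = h} ∪ {k + 1} : Set ℕ) :=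
    Nat.sInf_mem ⟨k + 1, Or.inr rfl⟩
  exact this

theorem L_le (k : ℕ) (h : Q k) {n : ℕ} {g : G} (hg : g ∈ W n) (hgh : red k g = h) : L k h ≤ n :=
  Nat.sInf_le (Or.inl ⟨g, hg, hgh⟩)

theorem L_le_cap (k : ℕ) (h : Q k) : L k h ≤ k + 1 := Nat.sInf_le (Or.inr rfl)

theorem L_one (k : ℕ) : L k 1 = 0 := by
  have := L_le k 1 (one_mem_W 0) (map_one _)
  omega

theorem L_inv_le (k : ℕ) (h : Q k) : L k h⁻¹ ≤ L k h := by
  rcases L_mem k h with ⟨g, hg, hgh⟩ | h1
  · exact L_le k _ (W_inv hg) (by rw [map_inv, hgh])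
  · rw [h1]; exact L_le_cap _ _

theorem L_inv (k : ℕ) (h : Q k) : L k h⁻¹ = L k h := by
  apply le_antisymm (L_inv_le k h)
  have := L_inv_le k h⁻¹
  rwa [inv_inv] at this

theorem L_mul (k : ℕ) (g h : Q k) : L k (g * h) ≤ L k g + L k h := by
  rcases L_mem k g with ⟨a, ha, hag⟩ | h1
  · rcases L_mem k h with ⟨b, hb, hbh⟩ | h2
    · exact L_le k _ (W_mul ha hb) (by rw [map_mul, hag, hbh])
    · have := L_le_cap k (g * h); omega
  · have := L_le_cap k (g * h); omega

theorem L_eq_zero (k : ℕ) (h : Q k) (h0 : L k h = 0) : h = 1 := by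
  rcases L_mem k h with ⟨g, hg, hgh⟩ | h1
  · rw [h0, W_zero, Set.mem_singleton_iff] at hg
    rw [← hgh, hg, map_one]
  · omega

/-- the box space -/
structure X : Type where
  /-- the component -/
  fst : ℕ
  /-- the point of the component -/
  snd : Q fst

/-- the distance -/
noncomputable def dX (p q : X) : ℕ :=
  if h : q.1 = p.1 then L p.1 (p.2⁻¹ * (h ▸ q.2)) else max p.1 q.1 + 1

theorem dX_same (k : ℕ) (x y : Q k) : dX ⟨k, x⟩ ⟨k, y⟩ = L k (x⁻¹ * y) := by
  simp [dX]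

theorem dX_diff (k l : ℕ) (x : Q k) (y : Q l) (h : k ≠ l) : dX ⟨k, x⟩ ⟨l, y⟩ = max k l + 1 := by
  unfold dX
  rw [dif_neg]
  exact fun h' => h h'.symm

theorem dX_self (p : X) : dX p p = 0 := by
  obtain ⟨k, x⟩ := p
  rw [dX_same, inv_mul_cancel, L_one]

theorem dX_comm (p q : X) : dX p q = dX q p := by
  obtain ⟨k, x⟩ := p
  obtain ⟨l, y⟩ := q
  by_cases h : k = l
  · subst h
    rw [dX_same, dX_same, ← L_inv]
    congr 1
    group
  · rw [dX_diff _ _ _ _ h, dX_diff _ _ _ _ (Ne.symm h), max_comm]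

theorem dX_triangle (p q r : X) : dX p r ≤ dX p q + dX q r := by
  obtain ⟨k, x⟩ := p
  obtain ⟨l, y⟩ := q
  obtain ⟨m, z⟩ := r
  by_cases hkl : k = l
  · subst hkl
    by_cases hkm : k = m
    · subst hkm
      rw [dX_same, dX_same, dX_same]
      have : x⁻¹ * z = (x⁻¹ * y) * (y⁻¹ * z) := by group
      rw [this]
      exact L_mul _ _ _
    · rw [dX_diff _ _ _ _ hkm, dX_diff _ _ _ _ hkm]
      omega
  · by_cases hkm : k = m
    · subst hkm
      rw [dX_same, dX_diff _ _ _ _ hkl, dX_diff _ _ _ _ (Ne.symm hkl)]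
      have := L_le_cap k (x⁻¹ * z)
      omega
    · rw [dX_diff _ _ _ _ hkm, dX_diff _ _ _ _ hkl]
      by_cases hlm : l = m
      · subst hlm
        rw [dX_same]
        omega
      · rw [dX_diff _ _ _ _ hlm]
        omega

theorem dX_eq_zero (p q : X) (h : dX p q = 0) : p = q := by
  obtain ⟨k, x⟩ := p
  obtain ⟨l, y⟩ := q
  by_cases hkl : k = l
  · subst hkl
    rw [dX_same] at h
    have := L_eq_zero _ _ h
    rw [inv_mul_eq_one] at this
    rw [this]
  · rw [dX_diff _ _ _ _ hkl] at h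
    omega

noncomputable instance : MetricSpace X where
  dist p q := (dX p q : ℝ)
  dist_self p := by rw [dX_self]; simp
  dist_comm p q := by rw [dX_comm]
  dist_triangle p q r := by exact_mod_cast dX_triangle p q r
  eq_of_dist_eq_zero {p q} h := dX_eq_zero p q (by exact_mod_cast h)

theorem dist_eq (p q : X) : dist p q = (dX p q : ℝ) := rfl

noncomputable instance : MeasurableSpace X := borel X
instance : BorelSpace X := ⟨rfl⟩

/-- finitely many points in the first components -/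
theorem fin_lt (m : ℕ) : {p : X | p.1 < m}.Finite := by
  have h : {p : X | p.1 < m} ⊆ ⋃ k ∈ Finset.range m, Set.range (fun x : Q k => (⟨k, x⟩ : X)) := by
    rintro ⟨k, x⟩ hk
    exact Set.mem_biUnion (Finset.mem_coe.2 (Finset.mem_range.2 hk)) ⟨x, rfl⟩
  refine Set.Finite.subset ?_ h
  exact Set.Finite.biUnion (Finset.finite_toSet _) fun k _ => Set.finite_range _

theorem bounded_geometry (R : ℝ) (_hR : 0 < R) : ∃ N : ℕ, ∀ x : X,
    (Metric.ball x R).Finite ∧ (Metric.ball x R).ncard ≤ N := by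
  set m := ⌈R⌉₊ with hm
  have hRm : R ≤ m := Nat.le_ceil R
  refine ⟨{p : X | p.1 < m}.ncard + (W m).ncard, fun x => ?_⟩
  obtain ⟨k, x⟩ := x
  have hsub : Metric.ball (⟨k, x⟩ : X) R ⊆
      {p : X | p.1 < m} ∪ (fun g => (⟨k, x * red k g⟩ : X)) '' W m := by
    rintro ⟨l, y⟩ hy
    rw [Metric.mem_ball, dist_eq] at hy
    have hy' : dX ⟨l, y⟩ ⟨k, x⟩ < m := by exact_mod_cast hy.trans_le hRm
    by_cases hlk : l = k
    · subst hlk
      rw [dX_same] at hy'
      rcases L_mem l (y⁻¹ * x) with ⟨g, hg, hgy⟩ | h1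
      · right
        refine ⟨g⁻¹, W_inv (W_mono hy'.le hg), ?_⟩
        simp only [map_inv, hgy]
        congr 1
        group
      · left
        show l < m
        omega
    · left
      rw [dX_diff _ _ _ _ hlk] at hy'
      show l < m
      omega
  have hfin : ({p : X | p.1 < m} ∪ (fun g => (⟨k, x * red k g⟩ : X)) '' W m).Finite :=
    (fin_lt m).union ((W_fin m).image _)
  refine ⟨hfin.subset hsub, ?_⟩
  refine (Set.ncard_le_ncard hsub hfin).trans ((Set.ncard_union_le _ _).trans ?_)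
  exact Nat.add_le_add_left (Set.ncard_image_le (W_fin m)) _

theorem not_propertyA : ¬ (∀ R : ℝ, 0 < R → ∀ ε : ℝ, 0 < ε →
        ∃ S : ℝ, ∃ A : X → Set (X × ℕ),
          (∀ x, (A x).Finite) ∧ (∀ x, (x, 0) ∈ A x) ∧
          (∀ x, ∀ w ∈ A x, dist w.1 x ≤ S) ∧
          ∀ x y, dist x y < R →
            ((symmDiff (A x) (A y)).ncard : ℝ) < ε * ((A x ∩ A y).ncard : ℝ)) := by
  intro h
  obtain ⟨S, A, hfin, h0, hS, hvar⟩ := h 2 (by norm_num) (1 / 16) (by norm_num)
  set n := ⌈S⌉₊ with hn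
  have hSn : S ≤ n := Nat.le_ceil S
  set k := 2 * 3 ^ (n + 1) with hk
  have hnk : n ≤ k := by
    have := Nat.lt_pow_self (a := 3) (n := n + 1) (by norm_num)
    omega
  set ι : Q k × ℕ → X × ℕ := fun w => (⟨k, w.1⟩, w.2) with hι
  have hinj : Function.Injective ι := by
    rintro ⟨a, i⟩ ⟨b, j⟩ hab
    have h1 : (X.mk k a) = X.mk k b := congrArg Prod.fst hab
    have h2 : i = j := congrArg Prod.snd hab
    have h3 : a = b := by
      rw [X.mk.injEq] at h1
      exact eq_of_heq h1.2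
    rw [h3, h2]
  have hrange : ∀ x : Q k, ∀ w ∈ A ⟨k, x⟩, ∃ w' : Q k × ℕ, ι w' = w ∧
      ∃ g ∈ W n, red k g = x⁻¹ * w'.1 := by
    rintro x ⟨⟨l, y⟩, i⟩ hw
    have h1 := hS ⟨k, x⟩ _ hw
    have h1' : (dX ⟨l, y⟩ ⟨k, x⟩ : ℝ) ≤ S := h1
    have h2 : dX ⟨l, y⟩ ⟨k, x⟩ ≤ n := by exact_mod_cast h1'.trans hSn
    by_cases hlk : l = k
    · subst hlk
      refine ⟨(y, i), rfl, ?_⟩
      rw [dX_same] at h2
      rcases L_mem _ (y⁻¹ * x) with ⟨g, hg, hgy⟩ | h3
      · refine ⟨g⁻¹, W_inv (W_mono h2 hg), ?_⟩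
        rw [map_inv, hgy]
        group
      · omega
    · rw [dX_diff _ _ _ _ hlk] at h2
      have : k ≤ max l k := le_max_right _ _
      omega
  have hfin' : ∀ x : Q k, (ι ⁻¹' A ⟨k, x⟩).Finite := fun x => (hfin _).preimage hinj.injOn
  set B : Q k → Finset (Q k × ℕ) := fun x => (hfin' x).toFinset with hBdef
  have hBA : ∀ x, ι '' (B x : Set (Q k × ℕ)) = A ⟨k, x⟩ := by
    intro x
    rw [hBdef]
    simp only [Set.Finite.coe_toFinset]
    rw [Set.image_preimage_eq_iff]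
    intro w hw
    obtain ⟨w', hw', -⟩ := hrange x w hw
    exact ⟨w', hw'⟩
  have hmem : ∀ x w, w ∈ B x ↔ ι w ∈ A ⟨k, x⟩ := by
    intro x w
    rw [hBdef]
    simp
  refine nonA (k := k) (n := n) le_rfl B (fun x => ⟨(x, 0), (hmem _ _).2 (h0 ⟨k, x⟩)⟩) ?_ ?_
  · intro x w hw
    obtain ⟨w', hw', hg⟩ := hrange x (ι w) ((hmem _ _).1 hw)
    have := hinj hw'
    subst this
    exact hg
  · intro x s hs
    have hd : dist (⟨k, x⟩ : X) ⟨k, x * red k s⟩ < 2 := by
      rw [dist_eq, dX_same]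
      have h1 : L k (x⁻¹ * (x * red k s)) ≤ 1 := by
        refine L_le k _ (g := s) (by rw [W_one]; exact hs) ?_
        group
      have h2 : (L k (x⁻¹ * (x * red k s)) : ℝ) ≤ 1 := by exact_mod_cast h1
      linarith
    have h1 := hvar _ _ hd
    have e1 : (symmDiff (A ⟨k, x⟩) (A ⟨k, x * red k s⟩)).ncard =
        (symmDiff (B x) (B (x * red k s))).card := by
      rw [← hBA, ← hBA, ← Set.image_symmDiff hinj, Set.ncard_image_of_injective _ hinj,
        ← Finset.coe_symmDiff, Set.ncard_coe_finset]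
    have e2 : (A ⟨k, x⟩ ∩ A ⟨k, x * red k s⟩).ncard = (B x ∩ B (x * red k s)).card := by
      rw [← hBA, ← hBA, ← Set.image_inter hinj, Set.ncard_image_of_injective _ hinj,
        ← Finset.coe_inter, Set.ncard_coe_finset]
    rw [e1, e2] at h1
    exact h1.le

end Pool.Agent.W685.PA
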